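import Mathlib
import Pool.Agent.W42.Cpx2

set_option autoImplicit false

/-!
Cycles of the 3x+1 map whose parity word is a concatenation of few words of low complexity.
-/

namespace Pool.Agent.W121.CY

open Finset Pool.Agent.H319R2 Pool.Agent.H547R3 Pool.Agent.W42.Cpx

/-- the set of the factors of length `n` of the word `w a, w (a+1), ..., w (b-1)` -/
def factors (w : ℕ → ℤ) (a b n : ℕ) : Finset (Fin n → ℤ) :=
  ((Ico a b).filter fun i => i + n ≤ b).image fun i => fun j : Fin n => w (i + j)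

/-- the parity word of `x` -/
def pw (x : ℤ) (i : ℕ) : ℤ := T^[i] x % 2

theorem factors_mono (w : ℕ → ℤ) {a b a' b' : ℕ} (ha : a' ≤ a) (hb : b ≤ b') (n : ℕ) :
    factors w a b n ⊆ factors w a' b' n := by
  intro u hu
  unfold factors at hu ⊢
  rw [mem_image] at hu ⊢
  obtain ⟨i, hi, rfl⟩ := hu
  rw [mem_filter, mem_Ico] at hi
  exact ⟨i, by rw [mem_filter, mem_Ico]; omega, rfl⟩

theorem factors_shift (x : ℤ) (s a b n : ℕ) :
    factors (pw (T^[s] x)) a b n = factors (pw x) (s + a) (s + b) n := by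
  ext u
  unfold factors
  rw [mem_image, mem_image]
  constructor
  · rintro ⟨i, hi, rfl⟩
    rw [mem_filter, mem_Ico] at hi
    refine ⟨s + i, by rw [mem_filter, mem_Ico]; omega, ?_⟩
    funext j
    unfold pw
    rw [← Function.iterate_add_apply, show s + i + (j : ℕ) = i + j + s by ring]
  · rintro ⟨i, hi, rfl⟩
    rw [mem_filter, mem_Ico] at hi
    refine ⟨i - s, by rw [mem_filter, mem_Ico]; omega, ?_⟩
    funext j
    unfold pw
    rw [← Function.iterate_add_apply, show i - s + (j : ℕ) + s = i + j by omega]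

/-- logarithmic size -/
noncomputable def e (y : ℤ) : ℝ := Real.logb 2 (|(y : ℝ)| + 1) + 5.17

theorem sig_le : Real.logb 2 (3 / 2) ≤ 0.585 := by
  rw [Real.logb_le_iff_le_rpow (by norm_num) (by norm_num)]
  have h : ((3 : ℝ) / 2) ^ (200 : ℕ) ≤ ((2 : ℝ) ^ (0.585 : ℝ)) ^ (200 : ℕ) := by
    rw [← Real.rpow_natCast ((2 : ℝ) ^ (0.585 : ℝ)) 200, ← Real.rpow_mul (by norm_num)]
    have : (0.585 : ℝ) * ((200 : ℕ) : ℝ) = ((117 : ℕ) : ℝ) := by norm_num
    rw [this, Real.rpow_natCast]
    norm_num
  exact le_of_pow_le_pow_left₀ (by norm_num) (by positivity) h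

theorem e_ge (y : ℤ) : 5.17 ≤ e y := by
  unfold e
  have : 0 ≤ Real.logb 2 (|(y : ℝ)| + 1) :=
    Real.logb_nonneg (by norm_num) (by linarith [abs_nonneg (y : ℝ)])
  linarith

theorem logb_growth (t : ℕ) (y : ℤ) :
    Real.logb 2 (|((T^[t] y : ℤ) : ℝ)| + 1) ≤ Real.logb 2 (|(y : ℝ)| + 1) + 0.585 * t := by
  have h1 := growth t y
  have h2 : ((3 : ℝ) / 2) ^ (od t y) ≤ (3 / 2) ^ t :=
    pow_le_pow_right₀ (by norm_num) (od_le t y)
  have h3 : |((T^[t] y : ℤ) : ℝ)| + 1 ≤ (3 / 2) ^ t * (|(y : ℝ)| + 1) :=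
    h1.trans (mul_le_mul_of_nonneg_right h2 (by positivity))
  have h4 := Real.logb_le_logb_of_le (b := 2) (by norm_num) (by positivity) h3
  rw [Real.logb_mul (by positivity) (by positivity), Real.logb_pow] at h4
  have h5 := mul_le_mul_of_nonneg_left sig_le (Nat.cast_nonneg (α := ℝ) t)
  linarith

theorem inj_of {Z : Finset ℤ} (hZ : IsCycle Z) {x : ℤ} (hx : x ∈ Z) :
    Set.InjOn (fun i => T^[i] x) (Set.Iio Z.card) := by
  rw [← (eq_orbit hZ hx).1]; exact Function.iterate_injOn_Iio_minimalPeriod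

theorem per_of {Z : Finset ℤ} (hZ : IsCycle Z) {x : ℤ} (hx : x ∈ Z) : T^[Z.card] x = x := by
  rw [← (eq_orbit hZ hx).1]; exact Function.iterate_minimalPeriod

/-- one block: it is short in terms of the size of its first element -/
theorem piece {Z : Finset ℤ} (hZ : IsCycle Z) {x : ℤ} (hx : x ∈ Z) {a b : ℕ} (hab : a ≤ b)
    (hb : b ≤ Z.card) (hw : ∀ n, 1 ≤ n → (factors (pw x) a b n).card ≤ n + 5) :
    (b : ℝ) - a ≤ 4.82 * e (T^[a] x) ∧ e (T^[b] x) ≤ 3.82 * e (T^[a] x) := by
  classical
  obtain ⟨k, rfl⟩ : ∃ k, b = a + k := ⟨b - a, by omega⟩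
  set y := T^[a] x with hy
  have hinj := inj_of hZ hx
  set h := Real.logb 2 (|(y : ℝ)| + 1) with hh
  have hh0 : 0 ≤ h := Real.logb_nonneg (by norm_num) (by linarith [abs_nonneg (y : ℝ)])
  have he : e y = h + 5.17 := rfl
  have claim : ∀ M : ℕ, 2 * (M + 1) + 5 ≤ k → (M : ℝ) ≤ h + 0.585 * (M + 6) := by
    intro M hM
    -- two equal factors
    have hpig : ∃ i ∈ range (M + 7), ∃ j ∈ range (M + 7), i ≠ j ∧
        (fun l : Fin (M + 1) => pw x (a + i + l)) = fun l : Fin (M + 1) => pw x (a + j + l) := by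
      have hmap : ∀ i ∈ range (M + 7), (fun l : Fin (M + 1) => pw x (a + i + l)) ∈
          factors (pw x) a (a + k) (M + 1) := by
        intro i hi
        rw [mem_range] at hi
        unfold factors
        rw [mem_image]
        exact ⟨a + i, by rw [mem_filter, mem_Ico]; omega, rfl⟩
      have hcard : (factors (pw x) a (a + k) (M + 1)).card < (range (M + 7)).card := by
        rw [card_range]
        have := hw (M + 1) (by omega)
        omega
      obtain ⟨i, hi, j, hj, hij, h2⟩ := exists_ne_map_eq_of_card_lt_of_maps_to hcard hmap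
      exact ⟨i, hi, j, hj, hij, h2⟩
    obtain ⟨i, hi, j, hj, hij, hw2⟩ := hpig
    rw [mem_range] at hi hj
    have hbig : ∃ i < M + 7, (2 : ℝ) ^ M ≤ |((T^[i] y : ℤ) : ℝ)| := by
      by_contra hcon
      push Not at hcon
      have h1 := hcon i hi
      have h2 := hcon j hj
      have h1' : |T^[i] y| < 2 ^ M := by exact_mod_cast h1
      have h2' : |T^[j] y| < 2 ^ M := by exact_mod_cast h2
      have h3 := words_inj h1' h2' (by
        funext l
        have := congrFun hw2 l
        unfold pw at this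
        rw [hy, ← Function.iterate_add_apply, ← Function.iterate_add_apply,
          ← Function.iterate_add_apply, ← Function.iterate_add_apply]
        rw [show (l : ℕ) + i + a = a + i + l by ring, show (l : ℕ) + j + a = a + j + l by ring]
        exact this)
      rw [hy, ← Function.iterate_add_apply, ← Function.iterate_add_apply] at h3
      have h4 := hinj (show i + a ∈ Set.Iio Z.card by rw [Set.mem_Iio]; omega)
        (show j + a ∈ Set.Iio Z.card by rw [Set.mem_Iio]; omega) h3
      omega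
    obtain ⟨i, hi, h1⟩ := hbig
    have h2 := logb_growth i y
    rw [← hh] at h2
    have h3 : (M : ℝ) ≤ Real.logb 2 (|((T^[i] y : ℤ) : ℝ)| + 1) := by
      have := Real.logb_le_logb_of_le (b := 2) (by norm_num) (by positivity)
        (show (2 : ℝ) ^ M ≤ |((T^[i] y : ℤ) : ℝ)| + 1 by linarith)
      rwa [Real.logb_pow, Real.logb_self_eq_one (by norm_num), mul_one] at this
    have h4 : (i : ℝ) ≤ M + 6 := by
      have : i ≤ M + 6 := by omega
      exact_mod_cast this
    linarith
  have hk : (k : ℝ) ≤ 4.82 * e y := by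
    rw [he]
    by_cases hk7 : k < 7
    · have : (k : ℝ) ≤ 6 := by
        have : k ≤ 6 := by omega
        exact_mod_cast this
      linarith
    · obtain ⟨M, hM1, hM2⟩ : ∃ M : ℕ, 2 * (M + 1) + 5 ≤ k ∧ k ≤ 2 * (M + 1) + 6 :=
        ⟨(k - 5) / 2 - 1, by omega, by omega⟩
      have h1 := claim M hM1
      have h2 : (k : ℝ) ≤ 2 * (M + 1) + 6 := by exact_mod_cast hM2
      linarith
  refine ⟨by push_cast; linarith, ?_⟩
  have h1 := logb_growth k y
  have h2 : T^[a + k] x = T^[k] y := by
    rw [hy, ← Function.iterate_add_apply, Nat.add_comm]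
  rw [h2]
  have h3 : e (T^[k] y) ≤ e y + 0.585 * k := by
    unfold e
    linarith
  have := e_ge y
  linarith

/-- a chain of blocks -/
theorem chain {Z : Finset ℤ} (hZ : IsCycle Z) {x : ℤ} (hx : x ∈ Z) (m : ℕ) (t : ℕ → ℕ)
    (ht0 : t 0 = 0) (hmono : ∀ i < m, t i ≤ t (i + 1)) (htm : t m ≤ Z.card)
    (hw : ∀ i < m, ∀ n, 1 ≤ n → (factors (pw x) (t i) (t (i + 1)) n).card ≤ n + 5) :
    (t m : ℝ) ≤ 4.82 / 2.82 * (3.82 ^ m - 1) * e x ∧ e (T^[t m] x) ≤ 3.82 ^ m * e x := by
  induction m with
  | zero => simp [ht0]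
  | succ m ih =>
    have hm := hmono m (by omega)
    obtain ⟨h1, h2⟩ := ih (fun i hi => hmono i (by omega)) (by omega) (fun i hi => hw i (by omega))
    obtain ⟨h3, h4⟩ := piece hZ hx hm htm (hw m (by omega))
    have he := e_ge x
    constructor
    · have h5 : (t (m + 1) : ℝ) ≤ 4.82 / 2.82 * (3.82 ^ m - 1) * e x + 4.82 * (3.82 ^ m * e x) := by
        linarith
      refine h5.trans (le_of_eq ?_)
      rw [pow_succ]
      ring
    · rw [pow_succ]
      linarith

/-- The word `w 0, ..., w (p-1)` is a concatenation of `m` words (cut at `0 = t 0 ≤ ... ≤ t m = p`)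
each having at most `n + s` factors of length `n`, for every `n ≥ 1`. -/
def Blocks (w : ℕ → ℤ) (m s p : ℕ) : Prop :=
  ∃ t : ℕ → ℕ, t 0 = 0 ∧ t m = p ∧ (∀ i < m, t i ≤ t (i + 1)) ∧
    ∀ i < m, ∀ n, 1 ≤ n → (factors w (t i) (t (i + 1)) n).card ≤ n + s

theorem mono_of {t : ℕ → ℕ} {m : ℕ} (h : ∀ i < m, t i ≤ t (i + 1)) {i j : ℕ} (hij : i ≤ j)
    (hj : j ≤ m) : t i ≤ t j := by
  induction j with
  | zero => rw [Nat.le_zero.1 hij]
  | succ j ih =>
    rcases Nat.eq_or_lt_of_le hij with h1 | h1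
    · rw [h1]
    · exact (ih (by omega) (by omega)).trans (h j (by omega))

theorem half_le (x : ℤ) : |x| ≤ 2 * |T x| := by
  rcases par x with h | h
  · have h1 := T_even h
    have h2 : |2 * T x| = |x| := by rw [h1]
    rw [abs_mul] at h2
    norm_num at h2
    rw [h2]
  · have h1 := T_odd h
    have h2 : |2 * T x| = |3 * x + 1| := by rw [h1]
    rw [abs_mul] at h2
    norm_num at h2
    rw [h2]
    rcases le_or_gt 0 x with h3 | h3
    · rw [abs_of_nonneg h3, abs_of_nonneg (by linarith)]; linarith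
    · rw [abs_of_neg h3, abs_of_neg (by omega)]; omega

theorem half_iter (k : ℕ) (x : ℤ) : |x| ≤ 2 ^ k * |T^[k] x| := by
  induction k generalizing x with
  | zero => simp
  | succ k ih =>
    rw [Function.iterate_succ_apply, pow_succ]
    have h1 := ih (T x)
    have h2 := half_le x
    linarith

theorem logb_back (k : ℕ) (y : ℤ) :
    Real.logb 2 (|(y : ℝ)| + 1) ≤ Real.logb 2 (|((T^[k] y : ℤ) : ℝ)| + 1) + k := by
  have h1 : |(y : ℝ)| ≤ 2 ^ k * |((T^[k] y : ℤ) : ℝ)| := by exact_mod_cast half_iter k y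
  have h2 : (1 : ℝ) ≤ 2 ^ k := one_le_pow₀ (by norm_num)
  have h3 : |(y : ℝ)| + 1 ≤ 2 ^ k * (|((T^[k] y : ℤ) : ℝ)| + 1) := by linarith
  have h4 := Real.logb_le_logb_of_le (b := 2) (by norm_num) (by positivity) h3
  rw [Real.logb_mul (by positivity) (by positivity), Real.logb_pow,
    Real.logb_self_eq_one (by norm_num)] at h4
  linarith

/-- a block containing the element `T^[s] x` is short before it or short after it -/
theorem split {Z : Finset ℤ} (hZ : IsCycle Z) {x : ℤ} (hx : x ∈ Z) {a b s : ℕ} (has : a ≤ s)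
    (hsb : s < b) (hb : b ≤ Z.card) (hw : ∀ n, 1 ≤ n → (factors (pw x) a b n).card ≤ n + 5) :
    (s : ℝ) - a ≤ e (T^[s] x) ∨ (b : ℝ) - s ≤ 2.585 * e (T^[s] x) := by
  classical
  set y := T^[s] x with hy
  have hinj := inj_of hZ hx
  set h := Real.logb 2 (|(y : ℝ)| + 1) with hh
  have hh0 : 0 ≤ h := Real.logb_nonneg (by norm_num) (by linarith [abs_nonneg (y : ℝ)])
  have he : e y = h + 5.17 := rfl
  -- the length of the words
  obtain ⟨M, hM1, hM2⟩ : ∃ M : ℕ, 1.585 * h + 4.095 < M ∧ (M : ℝ) ≤ 1.585 * h + 5.095 := by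
    refine ⟨⌊1.585 * h + 4.095⌋₊ + 1, ?_, ?_⟩
    · push_cast
      exact Nat.lt_floor_add_one _
    · push_cast
      have := Nat.floor_le (show 0 ≤ 1.585 * h + 4.095 by positivity)
      linarith
  obtain ⟨u, hu1, hu2⟩ : ∃ u : ℕ, (u : ℝ) < M - h ∧ (M : ℝ) - h ≤ u + 1 := by
    have h0 : 0 < (M : ℝ) - h := by linarith
    refine ⟨⌈(M : ℝ) - h⌉₊ - 1, ?_, ?_⟩
    · have h1 : 0 < ⌈(M : ℝ) - h⌉₊ := Nat.ceil_pos.2 h0
      have h2 := Nat.ceil_lt_add_one h0.le
      have h3 : ((⌈(M : ℝ) - h⌉₊ - 1 : ℕ) : ℝ) = (⌈(M : ℝ) - h⌉₊ : ℝ) - 1 := by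
        rw [Nat.cast_sub (by omega)]; simp
      rw [h3]; linarith
    · have h1 : 0 < ⌈(M : ℝ) - h⌉₊ := Nat.ceil_pos.2 h0
      have h2 := Nat.le_ceil ((M : ℝ) - h)
      have h3 : ((⌈(M : ℝ) - h⌉₊ - 1 : ℕ) : ℝ) = (⌈(M : ℝ) - h⌉₊ : ℝ) - 1 := by
        rw [Nat.cast_sub (by omega)]; simp
      rw [h3]; linarith
  have huM : u ≤ M := by
    have : (u : ℝ) < M + 1 := by linarith
    have : u < M + 1 := by exact_mod_cast this
    omega
  by_cases hA : s < a + u
  · left
    have : (s : ℝ) ≤ a + u := by exact_mod_cast hA.le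
    rw [he]
    linarith
  right
  push Not at hA
  -- `v` steps forward
  obtain ⟨v, hv⟩ : ∃ v, v + u = M + 6 := ⟨M + 6 - u, by omega⟩
  have hvr : (v : ℝ) + u = M + 6 := by exact_mod_cast hv
  by_contra hcon
  push Not at hcon
  rw [he] at hcon
  have hlong : s + v + (M + 1) ≤ b := by
    by_contra hcc
    push Not at hcc
    have : (b : ℝ) < s + v + (M + 1) := by exact_mod_cast hcc
    linarith
  -- two equal factors
  have hpig : ∃ i ∈ range (M + 7), ∃ j ∈ range (M + 7), i ≠ j ∧
      (fun l : Fin (M + 1) => pw x (s - u + i + l)) = fun l : Fin (M + 1) => pw x (s - u + j + l) := by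
    have hmap : ∀ i ∈ range (M + 7), (fun l : Fin (M + 1) => pw x (s - u + i + l)) ∈
        factors (pw x) a b (M + 1) := by
      intro i hi
      rw [mem_range] at hi
      unfold factors
      rw [mem_image]
      exact ⟨s - u + i, by rw [mem_filter, mem_Ico]; omega, rfl⟩
    have hcard : (factors (pw x) a b (M + 1)).card < (range (M + 7)).card := by
      rw [card_range]
      have := hw (M + 1) (by omega)
      omega
    obtain ⟨i, hi, j, hj, hij, h2⟩ := exists_ne_map_eq_of_card_lt_of_maps_to hcard hmap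
    exact ⟨i, hi, j, hj, hij, h2⟩
  obtain ⟨i, hi, j, hj, hij, hw2⟩ := hpig
  rw [mem_range] at hi hj
  have hbig : ∃ i < M + 7, (2 : ℝ) ^ M ≤ |((T^[s - u + i] x : ℤ) : ℝ)| := by
    by_contra hcon
    push Not at hcon
    have h1 := hcon i hi
    have h2 := hcon j hj
    have h1' : |T^[s - u + i] x| < 2 ^ M := by exact_mod_cast h1
    have h2' : |T^[s - u + j] x| < 2 ^ M := by exact_mod_cast h2
    have h3 := words_inj h1' h2' (by
      funext l
      have := congrFun hw2 l
      unfold pw at this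
      rw [← Function.iterate_add_apply, ← Function.iterate_add_apply,
        show (l : ℕ) + (s - u + i) = s - u + i + l by ring,
        show (l : ℕ) + (s - u + j) = s - u + j + l by ring]
      exact this)
    have h4 := hinj (show s - u + i ∈ Set.Iio Z.card by rw [Set.mem_Iio]; omega)
      (show s - u + j ∈ Set.Iio Z.card by rw [Set.mem_Iio]; omega) h3
    omega
  obtain ⟨i, hi, h1⟩ := hbig
  have h3 : (M : ℝ) ≤ Real.logb 2 (|((T^[s - u + i] x : ℤ) : ℝ)| + 1) := by
    have := Real.logb_le_logb_of_le (b := 2) (by norm_num) (by positivity)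
      (show (2 : ℝ) ^ M ≤ |((T^[s - u + i] x : ℤ) : ℝ)| + 1 by linarith)
    rwa [Real.logb_pow, Real.logb_self_eq_one (by norm_num), mul_one] at this
  rcases le_or_gt i u with hiu | hiu
  · -- before
    have h4 := logb_back (u - i) (T^[s - u + i] x)
    rw [← Function.iterate_add_apply, show u - i + (s - u + i) = s by omega, ← hy, ← hh] at h4
    have h5 : ((u - i : ℕ) : ℝ) ≤ u := by
      have : u - i ≤ u := by omega
      exact_mod_cast this
    linarith
  · -- after
    have h4 := logb_growth (i - u) y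
    rw [hy, ← Function.iterate_add_apply, show i - u + s = s - u + i by omega, ← hy, ← hh] at h4
    have h5 : ((i - u : ℕ) : ℝ) ≤ v := by
      have : i - u ≤ v := by omega
      exact_mod_cast this
    linarith

/-- the number of elements of a cycle which is a concatenation of `m` blocks -/
theorem total {Z : Finset ℤ} (hZ : IsCycle Z) {x : ℤ} (hx : x ∈ Z) {m : ℕ}
    (hB : Blocks (pw x) m 5 Z.card) {x0 : ℤ} (hx0 : x0 ∈ Z) :
    (Z.card : ℝ) ≤ 4.295 * 3.82 ^ m * e x0 := by
  classical
  obtain ⟨t, ht0, htm, hmono, hw⟩ := hB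
  have hp := hZ.card_pos
  -- position of `x0`
  obtain ⟨s, hs, hsx⟩ : ∃ s < Z.card, T^[s] x = x0 := by
    have h1 := (eq_orbit hZ hx).2
    rw [(eq_orbit hZ hx).1] at h1
    rw [h1, mem_image] at hx0
    obtain ⟨s, hs, h2⟩ := hx0
    exact ⟨s, mem_range.1 hs, h2⟩
  -- the block containing it
  have hm0 : 0 < m := by
    rcases Nat.eq_zero_or_pos m with h | h
    · rw [h, ht0] at htm; omega
    · exact h
  obtain ⟨j, hjm, hj1, hj2⟩ : ∃ j < m, t j ≤ s ∧ s < t (j + 1) := by
    have hex2 : ∃ j, s < t j ∧ j ≤ m := ⟨m, by omega, le_rfl⟩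
    have hf := Nat.find_spec hex2
    set J := Nat.find hex2 with hJ
    have hJ0 : J ≠ 0 := by
      intro h
      rw [h, ht0] at hf
      omega
    refine ⟨J - 1, by omega, ?_, ?_⟩
    · by_contra hcon
      push Not at hcon
      have := Nat.find_min hex2 (show J - 1 < J by omega)
      exact this ⟨hcon, by omega⟩
    · rw [show J - 1 + 1 = J by omega]; exact hf.1
  have hmn : ∀ {i j : ℕ}, i ≤ j → j ≤ m → t i ≤ t j := fun h1 h2 => mono_of hmono h1 h2
  have hj1m : t (j + 1) ≤ Z.card := by rw [← htm]; exact hmn (by omega) le_rfl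
  have he0 := e_ge x0
  -- chain of `i` blocks from `x`
  have cx : ∀ i ≤ m, (t i : ℝ) ≤ 4.82 / 2.82 * (3.82 ^ i - 1) * e x ∧ e (T^[t i] x) ≤ 3.82 ^ i * e x := by
    intro i hi
    exact chain hZ hx i t ht0 (fun l hl => hmono l (by omega))
      (by rw [← htm]; exact hmn hi le_rfl) (fun l hl => hw l (by omega))
  rcases split hZ hx hj1 hj2 hj1m (hw j hjm) with hcase | hcase
  · -- the first part of the block is short
    rw [hsx] at hcase
    -- chain from `x0` to `x`
    have c1 := chain hZ hx0 (m - j) (fun i => max (t (j + i)) s - s) (by simp; omega)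
      (by
        intro i hi
        have := hmono (j + i) (by omega)
        rw [show j + (i + 1) = j + i + 1 by ring]
        omega)
      (by
        rw [show j + (m - j) = m by omega, htm]
        omega)
      (by
        intro i hi n hn
        refine le_trans (card_le_card ?_) (hw (j + i) (by omega) n hn)
        rw [← hsx, factors_shift]
        have h1 : s < t (j + i + 1) := by
          have := hmn (i := j + 1) (j := j + i + 1) (by omega) (by omega)
          omega
        apply factors_mono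
        · omega
        · rw [show j + (i + 1) = j + i + 1 by ring]
          omega)
    rw [show j + (m - j) = m by omega, htm, show max Z.card s - s = Z.card - s by omega] at c1
    have hback : T^[Z.card - s] x0 = x := by
      rw [← hsx, ← Function.iterate_add_apply, show Z.card - s + s = Z.card by omega, per_of hZ hx]
    rw [hback] at c1
    have c2 := (cx j (by omega)).1
    have hcast : ((Z.card - s : ℕ) : ℝ) = (Z.card : ℝ) - s := by
      rw [Nat.cast_sub hs.le]
    rw [hcast] at c1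
    have hpow : (3.82 : ℝ) ^ m = 3.82 ^ (m - j) * 3.82 ^ j := by
      rw [← pow_add]; congr 1; omega
    have h1 : (1 : ℝ) ≤ 3.82 ^ j := one_le_pow₀ (by norm_num)
    have h1m : (1 : ℝ) ≤ 3.82 ^ m := one_le_pow₀ (by norm_num)
    have h2 : (t j : ℝ) ≤ 4.82 / 2.82 * (3.82 ^ j - 1) * (3.82 ^ (m - j) * e x0) := by
      refine c2.trans ?_
      apply mul_le_mul_of_nonneg_left c1.2
      apply mul_nonneg (by norm_num)
      linarith
    have h3 : (Z.card : ℝ) ≤ 4.82 / 2.82 * (3.82 ^ (m - j) - 1) * e x0 +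
        4.82 / 2.82 * (3.82 ^ j - 1) * (3.82 ^ (m - j) * e x0) + e x0 := by linarith [c1.1]
    have h4 : 4.82 / 2.82 * (3.82 ^ (m - j) - 1) * e x0 +
        4.82 / 2.82 * (3.82 ^ j - 1) * (3.82 ^ (m - j) * e x0) + e x0 =
        (4.82 / 2.82 * (3.82 ^ m - 1) + 1) * e x0 := by
      rw [hpow]; ring
    rw [h4] at h3
    refine h3.trans ?_
    apply mul_le_mul_of_nonneg_right _ (by linarith)
    linarith
  · -- the second part of the block is short
    rw [hsx] at hcase
    set x1 := T^[t (j + 1)] x with hx1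
    have hx1Z : x1 ∈ Z := hZ.closed hx _
    have hx1' : x1 = T^[t (j + 1) - s] x0 := by
      rw [hx1, ← hsx, ← Function.iterate_add_apply, show t (j + 1) - s + s = t (j + 1) by omega]
    have he1 : e x1 ≤ 2.5123 * e x0 := by
      have h1 := logb_growth (t (j + 1) - s) x0
      rw [← hx1'] at h1
      have h2 : ((t (j + 1) - s : ℕ) : ℝ) = (t (j + 1) : ℝ) - s := by
        rw [Nat.cast_sub hj2.le]
      rw [h2] at h1
      have h3 : e x1 ≤ e x0 + 0.585 * ((t (j + 1) : ℝ) - s) := by
        unfold e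
        linarith
      linarith
    -- chain from `x1` to `x`
    have c1 := chain hZ hx1Z (m - (j + 1)) (fun i => t (j + 1 + i) - t (j + 1)) (by simp)
      (by
        intro i hi
        have := hmono (j + 1 + i) (by omega)
        rw [show j + 1 + (i + 1) = j + 1 + i + 1 by ring]
        omega)
      (by
        rw [show j + 1 + (m - (j + 1)) = m by omega, htm]
        omega)
      (by
        intro i hi n hn
        refine le_trans (card_le_card ?_) (hw (j + 1 + i) (by omega) n hn)
        rw [hx1, factors_shift]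
        have h1 := hmn (i := j + 1) (j := j + 1 + i) (by omega) (by omega)
        have h2 := hmn (i := j + 1) (j := j + 1 + i + 1) (by omega) (by omega)
        apply factors_mono
        · omega
        · rw [show j + 1 + (i + 1) = j + 1 + i + 1 by ring]
          omega)
    rw [show j + 1 + (m - (j + 1)) = m by omega, htm] at c1
    have hback : T^[Z.card - t (j + 1)] x1 = x := by
      rw [hx1, ← Function.iterate_add_apply, show Z.card - t (j + 1) + t (j + 1) = Z.card by omega,
        per_of hZ hx]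
    rw [hback] at c1
    have c2 := (cx (j + 1) (by omega)).1
    have hcast : ((Z.card - t (j + 1) : ℕ) : ℝ) = (Z.card : ℝ) - t (j + 1) := by
      rw [Nat.cast_sub hj1m]
    rw [hcast] at c1
    have hpow : (3.82 : ℝ) ^ m = 3.82 ^ (m - (j + 1)) * 3.82 ^ (j + 1) := by
      rw [← pow_add]; congr 1; omega
    have h1 : (1 : ℝ) ≤ 3.82 ^ (j + 1) := one_le_pow₀ (by norm_num)
    have h1m : (1 : ℝ) ≤ 3.82 ^ m := one_le_pow₀ (by norm_num)
    have h2 : (t (j + 1) : ℝ) ≤
        4.82 / 2.82 * (3.82 ^ (j + 1) - 1) * (3.82 ^ (m - (j + 1)) * e x1) := by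
      refine c2.trans ?_
      apply mul_le_mul_of_nonneg_left c1.2
      apply mul_nonneg (by norm_num)
      linarith
    have h3 : (Z.card : ℝ) ≤ 4.82 / 2.82 * (3.82 ^ (m - (j + 1)) - 1) * e x1 +
        4.82 / 2.82 * (3.82 ^ (j + 1) - 1) * (3.82 ^ (m - (j + 1)) * e x1) := by linarith [c1.1]
    have h4 : 4.82 / 2.82 * (3.82 ^ (m - (j + 1)) - 1) * e x1 +
        4.82 / 2.82 * (3.82 ^ (j + 1) - 1) * (3.82 ^ (m - (j + 1)) * e x1) =
        4.82 / 2.82 * (3.82 ^ m - 1) * e x1 := by
      rw [hpow]; ring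
    rw [h4] at h3
    have h5 : 4.82 / 2.82 * (3.82 ^ m - 1) * e x1 ≤ 4.82 / 2.82 * (3.82 ^ m - 1) * (2.5123 * e x0) := by
      apply mul_le_mul_of_nonneg_left he1
      apply mul_nonneg (by norm_num)
      linarith
    refine (h3.trans h5).trans ?_
    have h6 : 4.82 / 2.82 * (3.82 ^ m - 1) * (2.5123 * e x0) =
        4.82 / 2.82 * (3.82 ^ m - 1) * 2.5123 * e x0 := by ring
    rw [h6]
    apply mul_le_mul_of_nonneg_right _ (by linarith)
    linarith

/-- the number of parity words of a concatenation of blocks -/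
theorem words_le {Z : Finset ℤ} (hZ : IsCycle Z) {x : ℤ} (hx : x ∈ Z) {m c : ℕ}
    (hB : Blocks (pw x) m c Z.card) (n : ℕ) (hn : 1 ≤ n) :
    (words Z n).card ≤ m * (n + c) + m * (n - 1) := by
  classical
  obtain ⟨t, ht0, htm, hmono, hw⟩ := hB
  have hsub : words Z n ⊆ ((range m).biUnion fun i => factors (pw x) (t i) (t (i + 1)) n) ∪
      ((range m).biUnion fun i => (Ico (t (i + 1) - (n - 1)) (t (i + 1))).image
        fun l => fun j : Fin n => pw x (l + j)) := by
    intro u hu
    unfold words at hu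
    rw [mem_image] at hu
    obtain ⟨y, hy, rfl⟩ := hu
    have h1 := (eq_orbit hZ hx).2
    rw [(eq_orbit hZ hx).1] at h1
    rw [h1, mem_image] at hy
    obtain ⟨l, hl, rfl⟩ := hy
    rw [mem_range] at hl
    have e1 : (fun j : Fin n => T^[(j : ℕ)] (T^[l] x) % 2) = fun j : Fin n => pw x (l + j) := by
      funext j
      unfold pw
      rw [← Function.iterate_add_apply, Nat.add_comm]
    rw [e1]
    obtain ⟨i, him, hi1, hi2⟩ : ∃ i < m, t i ≤ l ∧ l < t (i + 1) := by
      have hex2 : ∃ j, l < t j ∧ j ≤ m := ⟨m, by omega, le_rfl⟩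
      have hf := Nat.find_spec hex2
      set J := Nat.find hex2 with hJ
      have hJ0 : J ≠ 0 := by
        intro h
        rw [h, ht0] at hf
        omega
      refine ⟨J - 1, by omega, ?_, ?_⟩
      · by_contra hcon
        push Not at hcon
        have := Nat.find_min hex2 (show J - 1 < J by omega)
        exact this ⟨hcon, by omega⟩
      · rw [show J - 1 + 1 = J by omega]; exact hf.1
    rw [mem_union]
    by_cases hc : l + n ≤ t (i + 1)
    · left
      rw [mem_biUnion]
      refine ⟨i, mem_range.2 him, ?_⟩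
      unfold factors
      rw [mem_image]
      exact ⟨l, by rw [mem_filter, mem_Ico]; omega, rfl⟩
    · right
      rw [mem_biUnion]
      refine ⟨i, mem_range.2 him, ?_⟩
      rw [mem_image]
      exact ⟨l, by rw [mem_Ico]; omega, rfl⟩
  refine (card_le_card hsub).trans ((card_union_le _ _).trans ?_)
  apply Nat.add_le_add
  · refine card_biUnion_le.trans ?_
    refine (sum_le_card_nsmul _ _ (n + c) fun i hi => hw i (mem_range.1 hi) n hn).trans ?_
    rw [card_range, smul_eq_mul]
  · refine card_biUnion_le.trans ?_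
    refine (sum_le_card_nsmul _ _ (n - 1) fun i _ => ?_).trans ?_
    · refine card_image_le.trans ?_
      rw [Nat.card_Ico]
      omega
    · rw [card_range, smul_eq_mul]

end Pool.Agent.W121.CY
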