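import Mathlib
import Pool.Agent.W42.Form
import Pool.Agent.H547R3.Cyc

set_option autoImplicit false

/-!
The linear form of a cycle with large elements, and a lower bound for linear forms.
-/

namespace Pool.Agent.W121.CY

open Finset Pool.Agent.H319R2 Pool.Agent.H547R3

theorem log_step' {y : ℤ} (hy : 1000 ≤ |(y : ℝ)|) :
    |Real.log |3 * (y : ℝ) + 1| - Real.log |(y : ℝ)| - Real.log 3| ≤ 0.334 * (1 / |(y : ℝ)|) := by
  have hy0 : 0 < |(y : ℝ)| := by linarith
  have hlow : 3 * |(y : ℝ)| - 1 ≤ |3 * (y : ℝ) + 1| := by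
    have := abs_sub_abs_le_abs_sub (3 * (y : ℝ)) (-1)
    rw [abs_mul, abs_neg, abs_one, sub_neg_eq_add] at this
    norm_num at this
    linarith
  have hup : |3 * (y : ℝ) + 1| ≤ 3 * |(y : ℝ)| + 1 := by
    refine (abs_add_le _ _).trans ?_
    rw [abs_mul]; norm_num
  have hpos : 0 < |3 * (y : ℝ) + 1| := by linarith
  set a := |(y : ℝ)| with ha
  set b := |3 * (y : ℝ) + 1| with hb
  have e : Real.log b - Real.log a - Real.log 3 = Real.log (b / (3 * a)) := by
    rw [Real.log_div hpos.ne' (by positivity), Real.log_mul (by norm_num) hy0.ne']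
    ring
  rw [e, abs_le]
  constructor
  · have h1 : Real.log (3 * a / b) ≤ 3 * a / b - 1 := Real.log_le_sub_one_of_pos (by positivity)
    have h2 : Real.log (b / (3 * a)) = - Real.log (3 * a / b) := by
      rw [← Real.log_inv, inv_div]
    have h3 : 3 * a / b - 1 ≤ 0.334 * (1 / a) := by
      rw [div_sub_one hpos.ne', mul_one_div, div_le_div_iff₀ hpos (by positivity)]
      nlinarith
    rw [h2]; linarith
  · have h1 : Real.log (b / (3 * a)) ≤ b / (3 * a) - 1 := Real.log_le_sub_one_of_pos (by positivity)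
    have h3 : b / (3 * a) - 1 ≤ 0.334 * (1 / a) := by
      rw [div_sub_one (by positivity), mul_one_div, div_le_div_iff₀ (by positivity) (by positivity)]
      nlinarith
    linarith

theorem log_iter_sum' {x : ℤ} (hx : ∀ j, 1000 ≤ |((T^[j] x : ℤ) : ℝ)|) (k : ℕ) :
    |Real.log |((T^[k] x : ℤ) : ℝ)| - Real.log |(x : ℝ)| + k * Real.log 2 - od k x * Real.log 3| ≤
      0.334 * ∑ j ∈ range k, 1 / |((T^[j] x : ℤ) : ℝ)| := by
  induction k with
  | zero => simp [od]
  | succ k ih =>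
    rw [sum_range_succ, Function.iterate_succ_apply', mul_add]
    have hz1 := hx k
    have hz2 := hx (k + 1)
    rw [Function.iterate_succ_apply'] at hz2
    set z := T^[k] x with hz
    have hz0 : 0 < |(z : ℝ)| := by linarith
    rcases par z with h' | h'
    · rw [od_succ_even h']
      have h1 := T_even h'
      have h2 : (2 : ℝ) * ((T z : ℤ) : ℝ) = (z : ℝ) := by exact_mod_cast h1
      have h3 : Real.log |(z : ℝ)| = Real.log 2 + Real.log |((T z : ℤ) : ℝ)| := by
        rw [← h2, abs_mul, Real.log_mul (by norm_num)]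
        · norm_num
        · intro h0
          rw [← h2, abs_mul, h0, mul_zero] at hz0
          exact lt_irrefl _ hz0
      rw [h3] at ih
      push_cast
      have e : Real.log |((T z : ℤ) : ℝ)| - Real.log |(x : ℝ)| + ((k : ℝ) + 1) * Real.log 2 -
          od k x * Real.log 3 = Real.log 2 + Real.log |((T z : ℤ) : ℝ)| - Real.log |(x : ℝ)| +
          k * Real.log 2 - od k x * Real.log 3 := by ring
      rw [e]
      have : 0 ≤ 0.334 * (1 / |(z : ℝ)|) := by positivity
      linarith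
    · rw [od_succ_odd h']
      have h1 := T_odd h'
      have h2 : (2 : ℝ) * ((T z : ℤ) : ℝ) = 3 * (z : ℝ) + 1 := by exact_mod_cast h1
      have hTz : |((T z : ℤ) : ℝ)| ≠ 0 := by linarith
      have h3 : Real.log |((T z : ℤ) : ℝ)| = Real.log |3 * (z : ℝ) + 1| - Real.log 2 := by
        rw [← h2, abs_mul, Real.log_mul (by norm_num) hTz]
        norm_num
      have h4 := log_step' (y := z) hz1
      rw [h3]
      push_cast
      have e : Real.log |3 * (z : ℝ) + 1| - Real.log 2 - Real.log |(x : ℝ)| + ((k : ℝ) + 1) * Real.log 2 -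
          ((od k x : ℝ) + 1) * Real.log 3 = (Real.log |(z : ℝ)| - Real.log |(x : ℝ)| +
          k * Real.log 2 - od k x * Real.log 3) +
          (Real.log |3 * (z : ℝ) + 1| - Real.log |(z : ℝ)| - Real.log 3) := by ring
      rw [e]
      exact (abs_add_le _ _).trans (add_le_add ih h4)

/-- the linear form of a cycle all of whose elements are large -/
theorem form_le' {Z : Finset ℤ} (hZ : IsCycle Z) (h0 : ∀ x ∈ Z, 1000 ≤ |x|) :
    |(Z.card : ℝ) * Real.log 2 - odds Z * Real.log 3| ≤ 0.334 * ∑ x ∈ Z, 1 / |(x : ℝ)| := by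
  classical
  obtain ⟨x, hxZ, hpos, hset, hcard, hodd, hinj⟩ := hZ.normal
  have h := log_iter_sum' (x := x) (fun j => by
    have := h0 _ (hZ.closed hxZ j)
    exact_mod_cast this) (Function.minimalPeriod T x)
  rw [Function.iterate_minimalPeriod, sub_self, zero_add] at h
  rw [hcard, hodd]
  refine h.trans (le_of_eq ?_)
  congr 1
  conv_rhs => rw [hset]
  rw [sum_image]
  intro i hi j hj hij
  exact hinj (by simpa using hi) (by simpa using hj) hij

/-- best approximation from both sides, by two consecutive (intermediate) convergents -/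
theorem cf' {q1 r1 q2 r2 : ℤ} {δ : ℝ} (hdet : q1 * r2 - q2 * r1 = 1) (hq1 : 0 < q1) (hq2 : 0 < q2)
    (hδ : 0 < δ) (hA : δ ≤ (q1 : ℝ) * Real.log 2 - r1 * Real.log 3)
    (hB : δ ≤ (r2 : ℝ) * Real.log 3 - q2 * Real.log 2) (p o : ℤ) (hp : 0 < p) (hp2 : p < q1 + q2) :
    δ ≤ |(p : ℝ) * Real.log 2 - o * Real.log 3| := by
  obtain ⟨s, hs⟩ : ∃ s, s = p * r2 - o * q2 := ⟨_, rfl⟩
  obtain ⟨t, ht⟩ : ∃ t, t = q1 * o - r1 * p := ⟨_, rfl⟩
  have e1 : p = q1 * s + q2 * t := by
    rw [hs, ht]; linear_combination (-p) * hdet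
  have e2 : o = r1 * s + r2 * t := by
    rw [hs, ht]; linear_combination (-o) * hdet
  set A := (q1 : ℝ) * Real.log 2 - r1 * Real.log 3 with hAd
  set B := (r2 : ℝ) * Real.log 3 - q2 * Real.log 2 with hBd
  have e : (p : ℝ) * Real.log 2 - o * Real.log 3 = s * A - t * B := by
    rw [e1, e2, hAd, hBd]; push_cast; ring
  rw [e]
  rcases le_or_gt t 0 with h | h
  · have hs1 : 1 ≤ s := by
      by_contra hcon
      push Not at hcon
      have : s ≤ 0 := by omega
      nlinarith
    have hs' : (1 : ℝ) ≤ s := by exact_mod_cast hs1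
    have ht' : (t : ℝ) ≤ 0 := by exact_mod_cast h
    rw [le_abs]; left
    nlinarith
  · have hs1 : s ≤ 0 := by
      by_contra hcon
      push Not at hcon
      nlinarith
    have hs' : (s : ℝ) ≤ 0 := by exact_mod_cast hs1
    have ht' : (1 : ℝ) ≤ t := by
      have : 1 ≤ t := by omega
      exact_mod_cast this
    rw [le_abs]; right
    nlinarith

theorem ratio2 {a b : ℕ} {ε : ℝ} (h : (2 : ℝ) ^ a ≤ 3 ^ b * (1 - ε)) :
    ε ≤ (b : ℝ) * Real.log 3 - a * Real.log 2 := by
  have e : (b : ℝ) * Real.log 3 - a * Real.log 2 = - Real.log (2 ^ a / 3 ^ b) := by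
    rw [Real.log_div (by positivity) (by positivity), Real.log_pow, Real.log_pow]; ring
  rw [e]
  have h1 : Real.log (2 ^ a / 3 ^ b) ≤ 2 ^ a / 3 ^ b - 1 := Real.log_le_sub_one_of_pos (by positivity)
  have h2 : (2 : ℝ) ^ a / 3 ^ b ≤ 1 - ε := by
    rw [div_le_iff₀ (by positivity)]; linarith
  linarith

theorem nat1 : 3 ^ 47468 * 100000000 ≤ 2 ^ 75235 * 99999274 := by decide +kernel
theorem nat2 : 2 ^ 50508 * 100000000 ≤ 3 ^ 31867 * 99999274 := by decide +kernel
theorem nat3 : 3 ^ 79335 * 10000000 ≤ 2 ^ 125743 * 9999964 := by decide +kernel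
theorem nat4 : 2 ^ 176251 * 10000000 ≤ 3 ^ 111202 * 9999964 := by decide +kernel
theorem nat5 : 3 ^ 190537 * 1000000000 ≤ 2 ^ 301994 * 999999936 := by decide +kernel
theorem nat6 : 2 ^ 5008155 < 3 ^ 3159794 := by decide +kernel

/-- best approximation up to `125743` -/
theorem cfA (p o : ℤ) (hp : 0 < p) (hp2 : p < 125743) :
    (0.00000726 : ℝ) ≤ |(p : ℝ) * Real.log 2 - o * Real.log 3| := by
  have h1 : (0.00000726 : ℝ) ≤ ((75235 : ℕ) : ℝ) * Real.log 2 - ((47468 : ℕ) : ℝ) * Real.log 3 := by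
    apply Pool.Agent.W42.Form.log_ratio
    have h : ((3 ^ 47468 * 100000000 : ℕ) : ℝ) ≤ ((2 ^ 75235 * 99999274 : ℕ) : ℝ) :=
      Nat.cast_le.2 nat1
    rw [Nat.cast_mul, Nat.cast_mul, Nat.cast_pow, Nat.cast_pow] at h
    have : (1 : ℝ) - 0.00000726 = 99999274 / 100000000 := by norm_num
    rw [this, ← mul_div_assoc, le_div_iff₀ (by norm_num)]
    exact_mod_cast h
  have h2 : (0.00000726 : ℝ) ≤ ((31867 : ℕ) : ℝ) * Real.log 3 - ((50508 : ℕ) : ℝ) * Real.log 2 := by
    apply ratio2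
    have h : ((2 ^ 50508 * 100000000 : ℕ) : ℝ) ≤ ((3 ^ 31867 * 99999274 : ℕ) : ℝ) :=
      Nat.cast_le.2 nat2
    rw [Nat.cast_mul, Nat.cast_mul, Nat.cast_pow, Nat.cast_pow] at h
    have : (1 : ℝ) - 0.00000726 = 99999274 / 100000000 := by norm_num
    rw [this, ← mul_div_assoc, le_div_iff₀ (by norm_num)]
    exact_mod_cast h
  exact cf' (q1 := 75235) (r1 := 47468) (q2 := 50508) (r2 := 31867) (by norm_num) (by norm_num)
    (by norm_num) (by norm_num) (by push_cast at h1 ⊢; exact h1) (by push_cast at h2 ⊢; exact h2) p o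
    hp (by norm_num; exact hp2)

/-- best approximation up to `301994` -/
theorem cfB (p o : ℤ) (hp : 0 < p) (hp2 : p < 301994) :
    (0.0000036 : ℝ) ≤ |(p : ℝ) * Real.log 2 - o * Real.log 3| := by
  have h1 : (0.0000036 : ℝ) ≤ ((125743 : ℕ) : ℝ) * Real.log 2 - ((79335 : ℕ) : ℝ) * Real.log 3 := by
    apply Pool.Agent.W42.Form.log_ratio
    have h : ((3 ^ 79335 * 10000000 : ℕ) : ℝ) ≤ ((2 ^ 125743 * 9999964 : ℕ) : ℝ) :=
      Nat.cast_le.2 nat3
    rw [Nat.cast_mul, Nat.cast_mul, Nat.cast_pow, Nat.cast_pow] at h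
    have : (1 : ℝ) - 0.0000036 = 9999964 / 10000000 := by norm_num
    rw [this, ← mul_div_assoc, le_div_iff₀ (by norm_num)]
    exact_mod_cast h
  have h2 : (0.0000036 : ℝ) ≤ ((111202 : ℕ) : ℝ) * Real.log 3 - ((176251 : ℕ) : ℝ) * Real.log 2 := by
    apply ratio2
    have h : ((2 ^ 176251 * 10000000 : ℕ) : ℝ) ≤ ((3 ^ 111202 * 9999964 : ℕ) : ℝ) :=
      Nat.cast_le.2 nat4
    rw [Nat.cast_mul, Nat.cast_mul, Nat.cast_pow, Nat.cast_pow] at h
    have : (1 : ℝ) - 0.0000036 = 9999964 / 10000000 := by norm_num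
    rw [this, ← mul_div_assoc, le_div_iff₀ (by norm_num)]
    exact_mod_cast h
  exact cf' (q1 := 125743) (r1 := 79335) (q2 := 176251) (r2 := 111202) (by norm_num) (by norm_num)
    (by norm_num) (by norm_num) (by push_cast at h1 ⊢; exact h1) (by push_cast at h2 ⊢; exact h2) p o
    hp (by norm_num; exact hp2)

/-- best approximation up to `5008155` -/
theorem cfC (p o : ℤ) (hp : 0 < p) (hp2 : p < 5008155) :
    (0.000000064 : ℝ) ≤ |(p : ℝ) * Real.log 2 - o * Real.log 3| := by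
  have h1 : (0.000000064 : ℝ) ≤ ((301994 : ℕ) : ℝ) * Real.log 2 - ((190537 : ℕ) : ℝ) * Real.log 3 := by
    apply Pool.Agent.W42.Form.log_ratio
    have h : ((3 ^ 190537 * 1000000000 : ℕ) : ℝ) ≤ ((2 ^ 301994 * 999999936 : ℕ) : ℝ) :=
      Nat.cast_le.2 nat5
    rw [Nat.cast_mul, Nat.cast_mul, Nat.cast_pow, Nat.cast_pow] at h
    have : (1 : ℝ) - 0.000000064 = 999999936 / 1000000000 := by norm_num
    rw [this, ← mul_div_assoc, le_div_iff₀ (by norm_num)]
    exact_mod_cast h
  have h2 := Pool.Agent.W42.Form.log_pos_ratio nat6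
  refine h1.trans ?_
  have := Pool.Agent.W42.Form.cf (q1 := 301994) (r1 := 190537) (q2 := 5008155) (r2 := 3159794)
    (by norm_num) (by norm_num)
    (by norm_num) (by push_cast at h1 ⊢; linarith) (by push_cast at h2 ⊢; exact h2) p o hp hp2
  push_cast at this ⊢
  exact this

end Pool.Agent.W121.CY
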