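import Mathlib
import Pool.Agent.H319R2.Basic
import Pool.Agent.W121.CY.VerP
import Pool.Agent.W121.CY.VerN

set_option autoImplicit false

/-!
The integers `x` with `0 < |x| < 2 ^ 24` which have the least absolute value in their forward orbit
are `1, -1, -5, -17`.
-/

namespace Pool.Agent.W121.CY

open Pool.Agent.H319R2

theorem pos_all (n : ℕ) (h1 : 1 < n) (h2 : n < 2 ^ 24) : ∃ i, (f VerP.g)^[i] n < n := by
  rcases Nat.mod_two_eq_zero_or_one n with h | h
  · refine ⟨1, ?_⟩
    rw [Function.iterate_one, f_even h]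
    omega
  · have h4 : n % 4 = 1 ∨ n % 4 = 3 := by omega
    rcases h4 with h4 | h4
    · refine ⟨2, ?_⟩
      rw [show (f VerP.g)^[2] n = f VerP.g (f VerP.g n) from rfl, f_odd h]
      have e : VerP.g n = (3 * n + 1) / 2 := rfl
      rw [e, f_even (by omega)]
      omega
    · have h5 := VerP.all (n / 4) (by norm_num at h2 ⊢; omega)
      rw [show 4 * (n / 4) + 3 = n by omega] at h5
      rcases h5 with h5 | h5
      · exact h5
      · simp [VerP.ex] at h5

theorem neg_all (n : ℕ) (h1 : 0 < n) (h2 : n < 2 ^ 24) :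
    (∃ i, (f VerN.g)^[i] n < n) ∨ n = 1 ∨ n = 5 ∨ n = 17 := by
  rcases Nat.mod_two_eq_zero_or_one n with h | h
  · left
    refine ⟨1, ?_⟩
    rw [Function.iterate_one, f_even h]
    omega
  · have h4 : n % 4 = 1 ∨ n % 4 = 3 := by omega
    rcases h4 with h4 | h4
    · have h5 := VerN.all (n / 4) (by norm_num at h2 ⊢; omega)
      rw [show 4 * (n / 4) + 1 = n by omega] at h5
      rcases h5 with h5 | h5
      · exact Or.inl h5
      · right
        simpa [VerN.ex] using h5
    · left
      refine ⟨2, ?_⟩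
      rw [show (f VerN.g)^[2] n = f VerN.g (f VerN.g n) from rfl, f_odd h]
      have e : VerN.g n = (3 * n - 1) / 2 := rfl
      rw [e, f_even (by omega)]
      omega

theorem sp_eq (n : ℕ) : T (n : ℤ) = (f VerP.g n : ℕ) := by
  unfold T
  rcases Nat.mod_two_eq_zero_or_one n with h | h
  · rw [if_pos (by omega), f_even h]
    omega
  · rw [if_neg (by omega), f_odd h]
    unfold VerP.g
    omega

theorem sn_eq (n : ℕ) : T (-(n : ℤ)) = -((f VerN.g n : ℕ) : ℤ) := by
  unfold T
  rcases Nat.mod_two_eq_zero_or_one n with h | h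
  · rw [if_pos (by omega), f_even h]
    omega
  · rw [if_neg (by omega), f_odd h]
    unfold VerN.g
    omega

theorem sp_iter (j n : ℕ) : T^[j] (n : ℤ) = ((f VerP.g)^[j] n : ℕ) := by
  induction j generalizing n with
  | zero => rfl
  | succ j ih => rw [Function.iterate_succ_apply, Function.iterate_succ_apply, sp_eq, ih]

theorem sn_iter (j n : ℕ) : T^[j] (-(n : ℤ)) = -(((f VerN.g)^[j] n : ℕ) : ℤ) := by
  induction j generalizing n with
  | zero => rfl
  | succ j ih => rw [Function.iterate_succ_apply, Function.iterate_succ_apply, sn_eq, ih]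

/-- the least elements of cycles of absolute value below `2 ^ 24` -/
theorem least {x : ℤ} (h0 : x ≠ 0) (hx : |x| < 2 ^ 24) (hmin : ∀ j, |x| ≤ |T^[j] x|) :
    x = 1 ∨ x = -1 ∨ x = -5 ∨ x = -17 := by
  rcases lt_or_gt_of_ne h0 with h | h
  · obtain ⟨n, hn⟩ : ∃ n : ℕ, x = -(n : ℤ) := ⟨x.natAbs, by omega⟩
    rw [abs_of_neg h] at hx
    rcases neg_all n (by omega) (by zify; linarith) with ⟨j, hj⟩ | h2
    · have h3 := hmin j
      rw [hn, sn_iter, abs_neg, abs_neg] at h3
      simp only [Nat.abs_cast] at h3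
      omega
    · omega
  · obtain ⟨n, hn⟩ : ∃ n : ℕ, x = (n : ℤ) := ⟨x.natAbs, by omega⟩
    rw [abs_of_pos h] at hx
    by_cases h1 : n = 1
    · left; omega
    · obtain ⟨j, hj⟩ := pos_all n (by omega) (by zify; linarith)
      have h3 := hmin j
      rw [hn, sp_iter] at h3
      simp only [Nat.abs_cast] at h3
      omega

end Pool.Agent.W121.CY
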