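import Mathlib
import Pool.Agent.W42.Five
import Pool.Agent.W121.CY.Block
import Pool.Agent.W121.CY.Form2
import Pool.Agent.W121.CY.Small

set_option autoImplicit false

/-!
The cycles of the 3x+1 map which are concatenations of at most five words of low complexity.
-/

namespace Pool.Agent.W121.CY

open Finset Pool.Agent.H319R2 Pool.Agent.H547R3 Pool.Agent.W42.Cpx

theorem sum_bound (Z : Finset ℤ) (l : ℕ) (α β : ℝ) (hα : 0 ≤ α) (hmin : ∀ x ∈ Z, 2 ^ l ≤ |x|)
    (hF : ∀ i : ℕ, ((Z.filter fun x => |x| < 2 ^ i).card : ℝ) ≤ α * i + β) (j : ℕ) :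
    ∑ x ∈ Z.filter (fun x => |x| < 2 ^ (l + 1 + j)), 1 / |(x : ℝ)| ≤
      (α * ((l : ℝ) + 1) + (α + β)) / 2 ^ l -
      ((α * ((l : ℝ) + 1 + j) + (α + β)) - (Z.filter fun x => |x| < 2 ^ (l + 1 + j)).card) / 2 ^ (l + j) := by
  classical
  induction j with
  | zero =>
    have h1 : ∑ x ∈ Z.filter (fun x => |x| < 2 ^ (l + 1 + 0)), 1 / |(x : ℝ)| ≤
        (Z.filter fun x => |x| < 2 ^ (l + 1 + 0)).card • (1 / (2 : ℝ) ^ l) := by
      apply sum_le_card_nsmul
      intro x hx
      rw [mem_filter] at hx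
      apply one_div_le_one_div_of_le (by positivity)
      exact_mod_cast hmin x hx.1
    rw [nsmul_eq_mul] at h1
    refine h1.trans (le_of_eq ?_)
    simp only [Nat.cast_zero, add_zero]
    ring
  | succ j ih =>
    set A := Z.filter (fun x => |x| < 2 ^ (l + 1 + j)) with hA
    set B := Z.filter (fun x => |x| < 2 ^ (l + 1 + (j + 1))) with hB
    have hAB : A ⊆ B := by
      intro x hx
      rw [hA, mem_filter] at hx
      rw [hB, mem_filter]
      refine ⟨hx.1, hx.2.trans_le ?_⟩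
      exact pow_le_pow_right₀ (by norm_num) (by omega)
    have hsd := sum_sdiff (f := fun x : ℤ => 1 / |(x : ℝ)|) hAB
    rw [← hsd]
    have hnew : ∑ x ∈ B \ A, 1 / |(x : ℝ)| ≤ (B \ A).card • (1 / (2 : ℝ) ^ (l + 1 + j)) := by
      apply sum_le_card_nsmul
      intro x hx
      rw [mem_sdiff, hA, hB, mem_filter, mem_filter] at hx
      apply one_div_le_one_div_of_le (by positivity)
      have : 2 ^ (l + 1 + j) ≤ |x| := by
        by_contra hcon
        push Not at hcon
        exact hx.2 ⟨hx.1.1, hcon⟩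
      exact_mod_cast this
    have hcard : ((B \ A).card : ℝ) = B.card - A.card := by
      rw [card_sdiff_of_subset hAB, Nat.cast_sub (card_le_card hAB)]
    rw [nsmul_eq_mul, hcard] at hnew
    have hFA := hF (l + 1 + j)
    rw [← hA] at hFA
    push_cast at hFA
    have e1 : ((2 : ℝ)) ^ (l + (j + 1)) = 2 * 2 ^ (l + j) := by rw [← add_assoc, pow_succ]; ring
    have e2 : ((2 : ℝ)) ^ (l + 1 + j) = 2 * 2 ^ (l + j) := by
      rw [show l + 1 + j = l + j + 1 by ring, pow_succ]; ring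
    rw [e2] at hnew
    rw [e1]
    push_cast
    have hpos : (0 : ℝ) < 2 ^ (l + j) := by positivity
    have key : (((B.card : ℝ) - A.card) * (1 / (2 * 2 ^ (l + j))) -
        ((α * ((l : ℝ) + 1 + j) + (α + β)) - A.card) / 2 ^ (l + j)) ≤
        - ((α * ((l : ℝ) + 1 + (j + 1)) + (α + β) - B.card) / (2 * 2 ^ (l + j))) := by
      rw [← sub_nonneg]
      have : -((α * ((l : ℝ) + 1 + (j + 1)) + (α + β) - B.card) / (2 * 2 ^ (l + j))) -
          (((B.card : ℝ) - A.card) * (1 / (2 * 2 ^ (l + j))) -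
          ((α * ((l : ℝ) + 1 + j) + (α + β)) - A.card) / 2 ^ (l + j)) =
          (α * ((l : ℝ) + 1 + j) + β - A.card) / (2 * 2 ^ (l + j)) := by
        field_simp
        ring
      rw [this]
      apply div_nonneg _ (by positivity)
      linarith
    linarith

/-- no concatenation of at most five blocks has a least element of absolute value at least `2 ^ 24` -/
theorem large_false {Z : Finset ℤ} (hZ : IsCycle Z) {x : ℤ} (hx : x ∈ Z)
    (hB : Blocks (pw x) 5 5 Z.card)
    {x0 : ℤ} (hx0 : x0 ∈ Z) (hmin : ∀ x ∈ Z, |x0| ≤ |x|) (hbig : 2 ^ 24 ≤ |x0|) : False := by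
  classical
  have hx00 : x0 ≠ 0 := by rintro rfl; norm_num at hbig
  have hF : ∀ i : ℕ, ((Z.filter fun x => |x| < 2 ^ i).card : ℝ) ≤ 10 * i + 30 := by
    intro i
    have h1 := words_card Z i
    have h2 := words_le hZ hx hB (i + 1) (by omega)
    have h3 : (Z.filter fun x => |x| < 2 ^ i).card ≤ 10 * i + 30 := by omega
    exact_mod_cast h3
  set l := Nat.log 2 x0.natAbs with hl
  have hna : x0.natAbs ≠ 0 := Int.natAbs_ne_zero.2 hx00
  have hbig' : 2 ^ 24 ≤ x0.natAbs := by
    rw [Int.abs_eq_natAbs] at hbig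
    exact_mod_cast hbig
  have hl1 : 2 ^ l ≤ |x0| := by
    have := Nat.pow_log_le_self 2 hna
    rw [← hl] at this
    have h2 : ((2 ^ l : ℕ) : ℤ) ≤ (x0.natAbs : ℤ) := by exact_mod_cast this
    rw [← Int.abs_eq_natAbs] at h2
    push_cast at h2
    exact h2
  have hl2 : |x0| < 2 ^ (l + 1) := by
    have := Nat.lt_pow_succ_log_self (b := 2) (by norm_num) x0.natAbs
    have h2 : (x0.natAbs : ℤ) < ((2 ^ (l + 1) : ℕ) : ℤ) := by exact_mod_cast this
    rw [← Int.abs_eq_natAbs] at h2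
    push_cast at h2
    exact h2
  have hl22 : 24 ≤ l := by
    rw [hl]
    exact (Nat.le_log_iff_pow_le (by norm_num) hna).2 hbig'
  have hppos : 0 < Z.card := hZ.card_pos
  -- the number of elements
  have hp : (Z.card : ℝ) ≤ 3494 * ((l : ℝ) + 1) + 18064 := by
    have h1 := total hZ hx hB hx0
    have h2 : e x0 ≤ (l : ℝ) + 1 + 5.17 := by
      unfold e
      have h3 : |(x0 : ℝ)| + 1 ≤ 2 ^ (l + 1) := by
        have : |x0| + 1 ≤ 2 ^ (l + 1) := by omega
        exact_mod_cast this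
      have h4 := Real.logb_le_logb_of_le (b := 2) (by norm_num) (by positivity) h3
      rw [Real.logb_pow, Real.logb_self_eq_one (by norm_num), mul_one] at h4
      push_cast at h4
      linarith
    have h3 : (4.295 : ℝ) * 3.82 ^ 5 ≤ 3494 := by norm_num
    have h4 : (4.295 : ℝ) * 3.82 ^ 5 * e x0 ≤ 3494 * e x0 :=
      mul_le_mul_of_nonneg_right h3 (by linarith [e_ge x0])
    linarith
  -- the linear form
  have hform := form_le' hZ (fun y hy => by
    have := hmin y hy
    norm_num at hbig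
    linarith)
  obtain ⟨y, hyZ, hymax⟩ := exists_max_image Z (fun x => |x|) ⟨x0, hx0⟩
  obtain ⟨j, hj⟩ : ∃ j : ℕ, |y| < 2 ^ (l + 1 + j) := by
    refine ⟨y.natAbs, ?_⟩
    have h1 : y.natAbs < 2 ^ y.natAbs := Nat.lt_two_pow_self
    have h2 : (2 : ℕ) ^ y.natAbs ≤ 2 ^ (l + 1 + y.natAbs) := Nat.pow_le_pow_right (by norm_num) (by omega)
    have h3 : (y.natAbs : ℤ) < ((2 ^ (l + 1 + y.natAbs) : ℕ) : ℤ) := by exact_mod_cast h1.trans_le h2
    rw [← Int.abs_eq_natAbs] at h3
    push_cast at h3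
    exact h3
  have hall : Z.filter (fun x => |x| < 2 ^ (l + 1 + j)) = Z := by
    apply filter_true_of_mem
    intro x hx
    exact (hymax x hx).trans_lt hj
  have hsum := sum_bound Z l 10 30 (by norm_num) (fun x hx => hl1.trans (hmin x hx)) hF j
  rw [hall] at hsum
  have hFj := hF (l + 1 + j)
  rw [hall] at hFj
  push_cast at hFj
  have hsum2 : ∑ x ∈ Z, 1 / |(x : ℝ)| ≤ (10 * ((l : ℝ) + 1) + 40) / 2 ^ l := by
    have : 0 ≤ ((10 * ((l : ℝ) + 1 + j) + (10 + 30)) - Z.card) / 2 ^ (l + j) := by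
      apply div_nonneg _ (by positivity)
      linarith
    have e1 : (10 * ((l : ℝ) + 1) + (10 + 30)) / 2 ^ l = (10 * ((l : ℝ) + 1) + 40) / 2 ^ l := by norm_num
    linarith
  set Λ := |(Z.card : ℝ) * Real.log 2 - odds Z * Real.log 3| with hΛ
  have hΛ1 : Λ ≤ 0.668 * (10 * ((l : ℝ) + 1) + 40) / 2 ^ (l + 1) := by
    refine hform.trans ?_
    rw [pow_succ]
    have : 0.668 * (10 * ((l : ℝ) + 1) + 40) / (2 ^ l * 2) = 0.334 * ((10 * ((l : ℝ) + 1) + 40) / 2 ^ l) := by
      field_simp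
      ring
    rw [this]
    linarith
  set L := l + 1 with hL
  have hLr : ((l : ℝ) + 1) = (L : ℝ) := by rw [hL]; push_cast; ring
  rw [hLr] at hΛ1 hp
  have hL23 : 25 ≤ L := by omega
  have hΛ2 : Λ * 2 ^ L ≤ 6.68 * (L : ℝ) + 26.72 := by
    rw [le_div_iff₀ (by positivity)] at hΛ1
    linarith
  clear_value L
  rcases lt_or_ge L 31 with hA | hA
  · -- small
    have h1 := cfA (Z.card : ℤ) (odds Z : ℤ) (by exact_mod_cast hppos) (by
      have h2 : (L : ℝ) ≤ 30 := by
        have : L ≤ 30 := by omega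
        exact_mod_cast this
      have h3 : (Z.card : ℝ) < 125743 := by linarith
      exact_mod_cast h3)
    push_cast at h1
    rw [← hΛ] at h1
    interval_cases L <;> norm_num at hΛ2 <;> linarith
  rcases lt_or_ge L 82 with hD | hD
  · have h1 := cfB (Z.card : ℤ) (odds Z : ℤ) (by exact_mod_cast hppos) (by
      have h2 : (L : ℝ) ≤ 81 := by
        have : L ≤ 81 := by omega
        exact_mod_cast this
      have h3 : (Z.card : ℝ) < 301994 := by linarith
      exact_mod_cast h3)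
    push_cast at h1
    rw [← hΛ] at h1
    obtain ⟨i, hi⟩ : ∃ i, L = 31 + i := ⟨L - 31, by omega⟩
    have h2 : (1 : ℝ) + i ≤ 2 ^ i := by
      have : i + 1 ≤ 2 ^ i := Nat.lt_two_pow_self
      have : ((i + 1 : ℕ) : ℝ) ≤ ((2 ^ i : ℕ) : ℝ) := by exact_mod_cast this
      push_cast at this; linarith
    rw [hi, pow_add] at hΛ2
    push_cast at hΛ2
    have hi0 : (0 : ℝ) ≤ i := Nat.cast_nonneg _
    have h3 : (0.0000036 : ℝ) * (2 ^ 31 * (1 + i)) ≤ Λ * (2 ^ 31 * 2 ^ i) := by
      apply mul_le_mul h1 _ (by positivity) (by linarith)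
      exact mul_le_mul_of_nonneg_left h2 (by positivity)
    norm_num at h3 hΛ2
    linarith
  rcases lt_or_ge L 1400 with hC | hC
  · have h1 := cfC (Z.card : ℤ) (odds Z : ℤ) (by exact_mod_cast hppos) (by
      have h2 : (L : ℝ) ≤ 1400 := by exact_mod_cast hC.le
      have h3 : (Z.card : ℝ) < 5008155 := by linarith
      exact_mod_cast h3)
    push_cast at h1
    rw [← hΛ] at h1
    obtain ⟨i, hi⟩ : ∃ i, L = 32 + i := ⟨L - 32, by omega⟩
    have h2 : (1 : ℝ) + i ≤ 2 ^ i := by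
      have : i + 1 ≤ 2 ^ i := Nat.lt_two_pow_self
      have : ((i + 1 : ℕ) : ℝ) ≤ ((2 ^ i : ℕ) : ℝ) := by exact_mod_cast this
      push_cast at this; linarith
    rw [hi, pow_add] at hΛ2
    push_cast at hΛ2
    have hi0 : (0 : ℝ) ≤ i := Nat.cast_nonneg _
    have h3 : (0.000000064 : ℝ) * (2 ^ 32 * (1 + i)) ≤ Λ * (2 ^ 32 * 2 ^ i) := by
      apply mul_le_mul h1 _ (by positivity) (by linarith)
      exact mul_le_mul_of_nonneg_left h2 (by positivity)
    norm_num at h3 hΛ2
    linarith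
  · -- large
    obtain ⟨r, hr1, hr2⟩ : ∃ r : ℕ, 40 * r ≤ L ∧ L ≤ 40 * r + 39 := ⟨L / 40, by omega, by omega⟩
    have hr33 : 35 ≤ r := by omega
    obtain ⟨i, hi⟩ : ∃ i, r = 35 + i := ⟨r - 35, by omega⟩
    have hi0 : (0 : ℝ) ≤ i := Nat.cast_nonneg _
    have h2 : (1 : ℝ) + i ≤ 2 ^ i := by
      have : i + 1 ≤ 2 ^ i := Nat.lt_two_pow_self
      have : ((i + 1 : ℕ) : ℝ) ≤ ((2 ^ i : ℕ) : ℝ) := by exact_mod_cast this
      push_cast at this; linarith
    have hΛ0 : 0 ≤ Λ := abs_nonneg _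
    have hLr2 : (L : ℝ) ≤ 40 * r + 39 := by exact_mod_cast hr2
    have h3 : Λ * (2 ^ (39 * r) * 2 ^ r) ≤ 268 * r + 290 := by
      have : (2 : ℝ) ^ (39 * r) * 2 ^ r ≤ 2 ^ L := by
        rw [← pow_add]
        exact pow_le_pow_right₀ (by norm_num) (by omega)
      have h4 := mul_le_mul_of_nonneg_left this hΛ0
      have hr0 : (0 : ℝ) ≤ r := Nat.cast_nonneg _
      linarith
    have hr' : (r : ℝ) = 35 + i := by rw [hi]; push_cast; ring
    have h2r : (2 : ℝ) ^ 35 * (1 + i) ≤ 2 ^ r := by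
      rw [hi, pow_add]
      exact mul_le_mul_of_nonneg_left h2 (by positivity)
    have h39 : (1 : ℝ) ≤ 2 ^ (39 * r) := one_le_pow₀ (by norm_num)
    have hΛs : Λ < 0.01 := by
      have h5 : Λ * (2 ^ 35 * (1 + i)) ≤ Λ * (2 ^ (39 * r) * 2 ^ r) := by
        apply mul_le_mul_of_nonneg_left _ hΛ0
        have : (0 : ℝ) < 2 ^ r := by positivity
        nlinarith
      rw [hr'] at h3
      norm_num at h5
      by_contra hcon
      push Not at hcon
      nlinarith
    set P : ℤ := (Z.card : ℤ) with hP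
    set O : ℤ := (odds Z : ℤ) with hO
    have hΛe : Λ = |(P : ℝ) * Real.log 2 - O * Real.log 3| := by rw [hΛ, hP, hO]; push_cast; rfl
    have hP1 : (1 : ℝ) ≤ P := by
      have : (1 : ℤ) ≤ P := by rw [hP]; exact_mod_cast hppos
      exact_mod_cast this
    have l2 : (0.6931 : ℝ) < Real.log 2 := by have := Real.log_two_gt_d9; linarith
    have l2' : Real.log 2 < (0.6932 : ℝ) := by have := Real.log_two_lt_d9; linarith
    have l3 : (1.098 : ℝ) < Real.log 3 := by
      have h := Pool.Agent.W42.Form.log_pos_ratio (a := 84) (b := 53) (by norm_num)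
      push_cast at h
      linarith
    have l3' : Real.log 3 < (1.11 : ℝ) := by
      have h := Pool.Agent.W42.Form.log_ratio (a := 8) (b := 5) (ε := 0) (by norm_num)
      push_cast at h
      linarith
    rw [hΛe] at hΛs
    obtain ⟨hs1, hs2⟩ := abs_lt.1 hΛs
    have hp2o : P < 2 * O := by
      by_contra hcon
      push Not at hcon
      have : (2 : ℝ) * O ≤ P := by exact_mod_cast hcon
      nlinarith
    have h3o : 3 * O < 2 * P := by
      by_contra hcon
      push Not at hcon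
      have : (2 : ℝ) * P ≤ 3 * O := by exact_mod_cast hcon
      nlinarith
    have hH : 49 * ((P : ℝ) - O) ≤ (204800 / 117649) ^ r := by
      have hPO : (P : ℝ) ≤ 2 * O := by
        have : P ≤ 2 * O := hp2o.le
        exact_mod_cast this
      have hP2 : (P : ℝ) ≤ 3494 * L + 18064 := by
        have : (P : ℝ) = (Z.card : ℝ) := by rw [hP]; push_cast; rfl
        rw [this]; exact hp
      have hb : (1 : ℝ) + 0.74 * i ≤ (204800 / 117649) ^ i := by
        have h := one_add_mul_le_pow (a := (0.74 : ℝ)) (by norm_num) i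
        refine le_trans (le_of_eq (by ring)) (h.trans ?_)
        apply pow_le_pow_left₀ (by norm_num)
        norm_num
      have hb2 : (260000000 : ℝ) ≤ (204800 / 117649) ^ 35 := by norm_num
      have h6 : (260000000 : ℝ) * (1 + 0.74 * i) ≤ (204800 / 117649) ^ r := by
        rw [hi, pow_add]
        exact mul_le_mul hb2 hb (by positivity) (by positivity)
      rw [hr'] at hLr2
      linarith
    have hlow := Pool.Agent.W42.Form.lower r P O hp2o h3o hH
    rw [← hΛe] at hlow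
    have h7 : (1 : ℝ) * (2 ^ 35 * (1 + i)) ≤ 2 ^ 13 * (268 * r + 290) := by
      calc (1 : ℝ) * (2 ^ 35 * (1 + i)) ≤ (2 ^ 13 * 2 ^ (39 * r) * Λ) * 2 ^ r :=
            mul_le_mul hlow h2r (by positivity) (by positivity)
        _ = 2 ^ 13 * (Λ * (2 ^ (39 * r) * 2 ^ r)) := by ring
        _ ≤ 2 ^ 13 * (268 * r + 290) := by gcongr
    rw [hr'] at h7
    norm_num at h7
    linarith

end Pool.Agent.W121.CY
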