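import Mathlib
import Pool.Agent.W121.CY.Main

set_option autoImplicit false

/-!
Classification and asymptotic form.
-/

namespace Pool.Agent.W121.CY

open Finset Pool.Agent.H319R2 Pool.Agent.H547R3 Pool.Agent.W42.Cpx

/-- **Classification.** -/
theorem main (Z : Finset ℤ) : (IsCycle Z ∧ ∃ x ∈ Z, Blocks (pw x) 5 5 Z.card) ↔
    Z = {0} ∨ Z = {-1} ∨ Z = {1, 2} ∨ Z = {-5, -7, -10} ∨
      Z = {-17, -25, -37, -55, -82, -41, -61, -91, -136, -68, -34} := by
  classical
  have c0 : IsCycle ({0} : Finset ℤ) := ⟨0, 1, by norm_num, by decide, by decide⟩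
  have c1 : IsCycle ({-1} : Finset ℤ) := ⟨-1, 1, by norm_num, by decide, by decide⟩
  have c2 : IsCycle ({1, 2} : Finset ℤ) := ⟨1, 2, by norm_num, by decide, by decide⟩
  have c3 : IsCycle ({-5, -7, -10} : Finset ℤ) := ⟨-5, 3, by norm_num, by decide, by decide⟩
  have c4 : IsCycle ({-17, -25, -37, -55, -82, -41, -61, -91, -136, -68, -34} : Finset ℤ) :=
    ⟨-17, 11, by norm_num, by decide, by decide⟩
  constructor
  · rintro ⟨hZ, x, hx, hB⟩
    obtain ⟨x0, hx0, hmin⟩ := exists_min_image Z (fun x => |x|) (card_pos.1 hZ.card_pos)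
    by_cases h0 : x0 = 0
    · left
      rw [h0] at hx0
      exact hZ.eq_of_mem c0 hx0 (by simp)
    right
    have hsmall : |x0| < 2 ^ 24 := by
      by_contra hcon
      push Not at hcon
      exact large_false hZ hx hB hx0 hmin hcon
    rcases least h0 hsmall (fun j => hmin _ (hZ.closed hx0 j)) with h | h | h | h
    · right; left
      rw [h] at hx0
      exact hZ.eq_of_mem c2 hx0 (by simp)
    · left
      rw [h] at hx0
      exact hZ.eq_of_mem c1 hx0 (by simp)
    · right; right; left
      rw [h] at hx0
      exact hZ.eq_of_mem c3 hx0 (by simp)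
    · right; right; right
      rw [h] at hx0
      exact hZ.eq_of_mem c4 hx0 (by simp)
  · have hc : ∀ Z : Finset ℤ, IsCycle Z → Z.card ≤ 12 →
        (IsCycle Z ∧ ∃ x ∈ Z, Blocks (pw x) 5 5 Z.card) := by
      intro Z hZ hcard
      obtain ⟨x, hx⟩ := card_pos.1 hZ.card_pos
      refine ⟨hZ, x, hx, fun i => if i = 0 then 0 else Z.card, by simp, by simp, ?_, ?_⟩
      · intro i hi
        rcases Nat.eq_zero_or_pos i with h | h
        · simp [h]
        · show (if i = 0 then 0 else Z.card) ≤ (if i + 1 = 0 then 0 else Z.card)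
          rw [if_neg (by omega), if_neg (by omega)]
      · intro i hi n hn
        have h1 : factors (pw x) (if i = 0 then 0 else Z.card) (if i + 1 = 0 then 0 else Z.card) n ⊆
            factors (pw x) 0 Z.card n := by
          apply factors_mono
          · omega
          · rw [if_neg (by omega)]
        refine (card_le_card h1).trans ?_
        unfold factors
        rcases lt_or_ge n 4 with hn4 | hn4
        · -- at most `2 ^ n` words
          have h2 : ((Ico 0 Z.card).filter fun i => i + n ≤ Z.card).image
              (fun i => fun j : Fin n => pw x (i + j)) ⊆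
              Fintype.piFinset fun _ : Fin n => ({0, 1} : Finset ℤ) := by
            intro u hu
            rw [mem_image] at hu
            obtain ⟨i, -, rfl⟩ := hu
            rw [Fintype.mem_piFinset]
            intro j
            unfold pw
            rcases Int.emod_two_eq_zero_or_one (T^[i + (j : ℕ)] x) with h | h
            · rw [h]; simp
            · rw [h]; simp
          refine (card_le_card h2).trans ?_
          rw [Fintype.card_piFinset]
          simp only [prod_const, card_univ, Fintype.card_fin]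
          rw [show ({0, 1} : Finset ℤ).card = 2 by decide]
          interval_cases n <;> norm_num
        · refine card_image_le.trans ?_
          have h3 : (Ico 0 Z.card).filter (fun i => i + n ≤ Z.card) ⊆ range (Z.card + 1 - n) := by
            intro i hi
            rw [mem_filter, mem_Ico] at hi
            rw [mem_range]
            omega
          refine (card_le_card h3).trans ?_
          rw [card_range]
          omega
    rintro (h | h | h | h | h)
    · rw [h]; exact hc _ c0 (by decide)
    · rw [h]; exact hc _ c1 (by decide)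
    · rw [h]; exact hc _ c2 (by decide)
    · rw [h]; exact hc _ c3 (by decide)
    · rw [h]; exact hc _ c4 (by decide)

/-- explicit inequality, for every number of blocks -/
theorem ineq {Z : Finset ℤ} (hZ : IsCycle Z) {x : ℤ} (hx : x ∈ Z) {m : ℕ}
    (hB : Blocks (pw x) m 5 Z.card) {y : ℤ} (hy : y ∈ Z) :
    (Z.card : ℝ) ≤ 4.295 * 3.82 ^ m * (Real.logb 2 (|(y : ℝ)| + 1) + 5.17) :=
  total hZ hx hB hy

/-- the number of blocks is at least `c log p` -/
theorem asym : ∃ A : ℝ, ∀ Z : Finset ℤ, IsCycle Z → ∀ x ∈ Z, ∀ m : ℕ, Blocks (pw x) m 5 Z.card →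
    Real.log Z.card - Real.log (1 + Real.log Z.card) ≤ m * Real.log 3.82 + A := by
  classical
  obtain ⟨D, hD1, hD⟩ := min_bound
  have hlD : 0 ≤ Real.log D := Real.log_nonneg hD1
  have hl2 : 0 < Real.log 2 := Real.log_pos (by norm_num)
  set G : ℝ := 4.295 * ((14 + Real.log D + Real.log 2) / Real.log 2 + 5.17) with hG
  have hG0 : 0 < G := by positivity
  refine ⟨Real.log G, ?_⟩
  intro Z hZ x hx m hB
  obtain ⟨x0, hx0, hmin⟩ := exists_min_image Z (fun x => |x|) ⟨x, hx⟩
  have hp : 0 < Z.card := hZ.card_pos
  have hpr : (1 : ℝ) ≤ Z.card := by exact_mod_cast hp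
  have hlp : 0 ≤ Real.log Z.card := Real.log_nonneg hpr
  have h1 := ineq hZ hx hB hx0
  have hb : |(x0 : ℝ)| ≤ D * (Z.card : ℝ) ^ 14 := by
    by_cases h0 : x0 = 0
    · rw [h0]; simp; positivity
    · exact hD x0 Z.card hp h0 (per_of hZ hx0) (fun j => hmin _ (hZ.closed hx0 j))
  have hb2 : |(x0 : ℝ)| + 1 ≤ 2 * (D * (Z.card : ℝ) ^ 14) := by
    have : (1 : ℝ) ≤ D * (Z.card : ℝ) ^ 14 := by
      have := one_le_pow₀ hpr (n := 14)
      nlinarith
    linarith
  have h2 : Real.logb 2 (|(x0 : ℝ)| + 1) ≤
      (14 + Real.log D + Real.log 2) / Real.log 2 * (1 + Real.log Z.card) := by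
    have h3 := Real.logb_le_logb_of_le (b := 2) (by norm_num) (by positivity) hb2
    refine h3.trans ?_
    rw [Real.logb, Real.log_mul (by norm_num) (by positivity), Real.log_mul (by positivity)
      (by positivity), Real.log_pow, div_mul_eq_mul_div]
    apply div_le_div_of_nonneg_right _ hl2.le
    push_cast
    nlinarith
  have h3 : (Z.card : ℝ) ≤ 3.82 ^ m * (G * (1 + Real.log Z.card)) := by
    refine h1.trans ?_
    have h4 : Real.logb 2 (|(x0 : ℝ)| + 1) + 5.17 ≤
        ((14 + Real.log D + Real.log 2) / Real.log 2 + 5.17) * (1 + Real.log Z.card) := by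
      rw [add_mul]
      nlinarith
    have h5 : (0 : ℝ) ≤ 4.295 * 3.82 ^ m := by positivity
    refine (mul_le_mul_of_nonneg_left h4 h5).trans (le_of_eq ?_)
    rw [hG]
    ring
  have h4 := Real.log_le_log (by positivity) h3
  rw [Real.log_mul (by positivity) (by positivity), Real.log_mul hG0.ne' (by positivity),
    Real.log_pow] at h4
  linarith

end Pool.Agent.W121.CY
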