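import Mathlib

set_option autoImplicit false

/-!
Verification that the iterates of a map `n ↦ n/2`, `g n` (`n` odd) drop below the start, by a binary
tree of residue classes.
-/

namespace Pool.Agent.W121.CY

/-- the map -/
def f (g : ℕ → ℕ) (n : ℕ) : ℕ := bif Nat.beq (n % 2) 0 then n / 2 else g n

/-- `g` is affine on odd numbers with slope `3` -/
def Aff (g : ℕ → ℕ) : Prop := ∀ a t u : ℕ, u % 2 = 1 → g (2 * (a * t) + u) = 3 * a * t + g u

theorem f_even {g : ℕ → ℕ} {n : ℕ} (h : n % 2 = 0) : f g n = n / 2 := by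
  unfold f; rw [h]; rfl

theorem f_odd {g : ℕ → ℕ} {n : ℕ} (h : n % 2 = 1) : f g n = g n := by
  unfold f; rw [h]; rfl

/-- the tree: `n = P t + r`, `f^j n = a t + s` -/
def tr (g : ℕ → ℕ) (lf : ℕ → ℕ → ℕ → ℕ → Bool) : ℕ → ℕ → ℕ → ℕ → ℕ → Bool
  | 0, P, r, a, s => lf P r a s
  | k + 1, P, r, a, s =>
    bif Nat.blt s r && Nat.blt a P then true else
      (bif Nat.beq (s % 2) 0 then tr g lf k (2 * P) r a (s / 2) else tr g lf k (2 * P) r (3 * a) (g s)) &&
      (bif Nat.beq ((s + a) % 2) 0 then tr g lf k (2 * P) (r + P) a ((s + a) / 2)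
        else tr g lf k (2 * P) (r + P) (3 * a) (g (s + a)))

theorem child {g : ℕ → ℕ} (hg : Aff g) {j P r a s : ℕ} (h : ∀ t, (f g)^[j] (P * t + r) = a * t + s)
    (b : ℕ) :
    ((s + a * b) % 2 = 0 → ∀ t, (f g)^[j + 1] (2 * P * t + (r + P * b)) = a * t + (s + a * b) / 2) ∧
    ((s + a * b) % 2 = 1 → ∀ t, (f g)^[j + 1] (2 * P * t + (r + P * b)) = 3 * a * t + g (s + a * b)) := by
  have e : ∀ t, (f g)^[j + 1] (2 * P * t + (r + P * b)) = f g (2 * (a * t) + (s + a * b)) := by
    intro t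
    rw [Function.iterate_succ_apply']
    congr 1
    have := h (2 * t + b)
    rw [show 2 * P * t + (r + P * b) = P * (2 * t + b) + r by ring, this]
    ring
  constructor
  · intro hs t
    rw [e t, f_even (by omega)]
    omega
  · intro hs t
    rw [e t, f_odd (by omega), hg _ _ _ hs]

/-- some iterate of `n` is below `n`, or `n` is an exception -/
def Ok (g : ℕ → ℕ) (E : ℕ → Prop) (n : ℕ) : Prop := (∃ i, (f g)^[i] n < n) ∨ E n

theorem tr_spec {g : ℕ → ℕ} (hg : Aff g) {E : ℕ → Prop} (lf : ℕ → ℕ → ℕ → ℕ → Bool) (M : ℕ)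
    (hleaf : ∀ j P r a s : ℕ, lf P r a s = true → (∀ t, (f g)^[j] (P * t + r) = a * t + s) →
      ∀ t < M, Ok g E (P * t + r)) (k : ℕ) :
    ∀ j P r a s : ℕ, tr g lf k P r a s = true → (∀ t, (f g)^[j] (P * t + r) = a * t + s) →
      ∀ t < 2 ^ k * M, Ok g E (P * t + r) := by
  induction k with
  | zero =>
    intro j P r a s h1 h2 t ht
    exact hleaf j P r a s h1 h2 t (by simpa using ht)
  | succ k ih =>
    intro j P r a s h1 h2 t ht
    rw [tr] at h1
    by_cases hc : s < r ∧ a < P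
    · refine Or.inl ⟨j, ?_⟩
      rw [h2 t]
      have := Nat.mul_le_mul_right t hc.2.le
      omega
    · have hc' : (Nat.blt s r && Nat.blt a P) = false := by
        rw [← Bool.not_eq_true, Bool.and_eq_true]
        simpa [Nat.blt] using hc
      rw [hc', cond_false, Bool.and_eq_true] at h1
      have ht2 : t / 2 < 2 ^ k * M := by
        rw [pow_succ] at ht
        rw [Nat.div_lt_iff_lt_mul (by norm_num)]
        linarith
      have key : ∀ b : ℕ, t = 2 * (t / 2) + b →
          (bif Nat.beq ((s + a * b) % 2) 0 then tr g lf k (2 * P) (r + P * b) a ((s + a * b) / 2)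
            else tr g lf k (2 * P) (r + P * b) (3 * a) (g (s + a * b))) = true →
          Ok g E (P * t + r) := by
        intro b hb h3
        have e : P * t + r = 2 * P * (t / 2) + (r + P * b) := by
          conv_lhs => rw [hb]
          ring
        rw [e]
        rcases Nat.mod_two_eq_zero_or_one (s + a * b) with h | h
        · rw [h] at h3
          exact ih (j + 1) _ _ _ _ h3 ((child hg h2 b).1 h) _ ht2
        · rw [h] at h3
          exact ih (j + 1) _ _ _ _ h3 ((child hg h2 b).2 h) _ ht2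
      rcases Nat.mod_two_eq_zero_or_one t with h | h
      · exact key 0 (by omega) (by simpa using h1.1)
      · exact key 1 (by omega) (by simpa using h1.2)

/-- check of the table `D` of the tenth iterates -/
def tbl (g : ℕ → ℕ) (D : ℕ) : ℕ → ℕ → ℕ → ℕ → ℕ → Bool
  | 0, _, r, a, s => Nat.beq (Nat.shiftRight D (32 * r) % 4294967296) (a + 65536 * s) && Nat.blt a 65536
  | k + 1, P, r, a, s =>
      (bif Nat.beq (s % 2) 0 then tbl g D k (2 * P) r a (s / 2) else tbl g D k (2 * P) r (3 * a) (g s)) &&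
      (bif Nat.beq ((s + a) % 2) 0 then tbl g D k (2 * P) (r + P) a ((s + a) / 2)
        else tbl g D k (2 * P) (r + P) (3 * a) (g (s + a)))

def jump (D s : ℕ) : ℕ :=
  (s / 1024) * (Nat.shiftRight D (32 * (s % 1024)) % 4294967296 % 65536) +
    Nat.shiftRight D (32 * (s % 1024)) % 4294967296 / 65536

theorem tbl_spec {g : ℕ → ℕ} (hg : Aff g) (D : ℕ) (k : ℕ) :
    ∀ j P r a s : ℕ, tbl g D k P r a s = true → (∀ t, (f g)^[j] (P * t + r) = a * t + s) →
      ∀ u < 2 ^ k, ∀ t, (f g)^[j + k] (2 ^ k * P * t + (P * u + r)) =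
        t * (Nat.shiftRight D (32 * (P * u + r)) % 4294967296 % 65536) +
          Nat.shiftRight D (32 * (P * u + r)) % 4294967296 / 65536 := by
  induction k with
  | zero =>
    intro j P r a s h1 h2 u hu t
    have hu0 : u = 0 := by simpa using hu
    subst hu0
    rw [tbl, Bool.and_eq_true] at h1
    have e1 : Nat.shiftRight D (32 * r) % 4294967296 = a + 65536 * s := Nat.eq_of_beq_eq_true h1.1
    have e2 : a < 65536 := by simpa [Nat.blt] using h1.2
    rw [show P * 0 + r = r by ring, e1]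
    have := h2 t
    rw [show 2 ^ 0 * P * t + r = P * t + r by ring, Nat.add_zero, this]
    have e3 : (a + 65536 * s) % 65536 = a := by omega
    have e4 : (a + 65536 * s) / 65536 = s := by omega
    rw [e3, e4]
    ring
  | succ k ih =>
    intro j P r a s h1 h2 u hu t
    rw [tbl, Bool.and_eq_true] at h1
    have hu2 : u / 2 < 2 ^ k := by rw [pow_succ] at hu; omega
    have key : ∀ b : ℕ, u = 2 * (u / 2) + b →
        (bif Nat.beq ((s + a * b) % 2) 0 then tbl g D k (2 * P) (r + P * b) a ((s + a * b) / 2)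
          else tbl g D k (2 * P) (r + P * b) (3 * a) (g (s + a * b))) = true →
        (f g)^[j + (k + 1)] (2 ^ (k + 1) * P * t + (P * u + r)) =
        t * (Nat.shiftRight D (32 * (P * u + r)) % 4294967296 % 65536) +
          Nat.shiftRight D (32 * (P * u + r)) % 4294967296 / 65536 := by
      intro b hb h3
      have e : P * u + r = 2 * P * (u / 2) + (r + P * b) := by
        conv_lhs => rw [hb]
        ring
      rw [e, show 2 ^ (k + 1) * P * t = 2 ^ k * (2 * P) * t by ring,
        show j + (k + 1) = j + 1 + k by ring]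
      rcases Nat.mod_two_eq_zero_or_one (s + a * b) with h | h
      · rw [h] at h3
        exact ih (j + 1) _ _ _ _ h3 ((child hg h2 b).1 h) _ hu2 t
      · rw [h] at h3
        exact ih (j + 1) _ _ _ _ h3 ((child hg h2 b).2 h) _ hu2 t
    rcases Nat.mod_two_eq_zero_or_one u with h | h
    · exact key 0 (by omega) (by simpa using h1.1)
    · exact key 1 (by omega) (by simpa using h1.2)

theorem jump_spec {g : ℕ → ℕ} (hg : Aff g) {D : ℕ} (hD : tbl g D 10 1 0 1 0 = true) (s : ℕ) :
    (f g)^[10] s = jump D s := by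
  have h := tbl_spec hg D 10 0 1 0 1 0 hD (fun t => by simp) (s % 1024)
    (by have := Nat.mod_lt s (show 1024 > 0 by norm_num); norm_num; omega) (s / 1024)
  have e1 : 2 ^ 10 * 1 * (s / 1024) + (1 * (s % 1024) + 0) = s := by
    have := Nat.div_add_mod s 1024
    norm_num
    omega
  have e2 : 1 * (s % 1024) + 0 = s % 1024 := by ring
  rw [e1, e2, Nat.zero_add] at h
  exact h

/-- iterate by tenth iterates until below `n` -/
def go (D n : ℕ) : ℕ → ℕ → Bool
  | 0, _ => false
  | F + 1, s => bif Nat.blt s n then true else go D n F (jump D s)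

theorem go_spec {g : ℕ → ℕ} (hg : Aff g) {D : ℕ} (hD : tbl g D 10 1 0 1 0 = true) (n F : ℕ) :
    ∀ s, go D n F s = true → ∃ i, (f g)^[i] s < n := by
  induction F with
  | zero => intro s h; simp [go] at h
  | succ F ih =>
    intro s h
    rw [go] at h
    by_cases hc : s < n
    · exact ⟨0, hc⟩
    · have hc' : Nat.blt s n = false := by
        rw [← Bool.not_eq_true]
        simpa [Nat.blt] using hc
      rw [hc', cond_false] at h
      obtain ⟨i, hi⟩ := ih _ h
      refine ⟨i + 10, ?_⟩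
      rw [Function.iterate_add_apply, jump_spec hg hD]
      exact hi

/-- leaf of the full tree -/
def lg (D : ℕ) (ex : List ℕ) (_ r _ s : ℕ) : Bool := go D r 60 s || ex.any fun e => Nat.beq r e

theorem lg_spec {g : ℕ → ℕ} (hg : Aff g) {D : ℕ} (hD : tbl g D 10 1 0 1 0 = true) (ex : List ℕ)
    (j P r a s : ℕ) (h : lg D ex P r a s = true) (h2 : ∀ t, (f g)^[j] (P * t + r) = a * t + s) :
    ∀ t < 1, Ok g (fun n => n ∈ ex) (P * t + r) := by
  intro t ht
  have ht0 : t = 0 := by omega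
  subst ht0
  rw [lg, Bool.or_eq_true] at h
  rcases h with h | h
  · obtain ⟨i, hi⟩ := go_spec hg hD _ _ _ h
    refine Or.inl ⟨i + j, ?_⟩
    rw [Function.iterate_add_apply, h2 0]
    simpa using hi
  · rw [List.any_eq_true] at h
    obtain ⟨e, he, h3⟩ := h
    refine Or.inr ?_
    have : r = e := Nat.eq_of_beq_eq_true h3
    subst this
    simpa using he

/-- leaf of the top tree: membership in a list -/
def lm (Q : ℕ) (l : List (ℕ × ℕ × ℕ)) (P r a s : ℕ) : Bool :=
  Nat.beq P Q && l.any fun q => Nat.beq r q.1 && Nat.beq a q.2.1 && Nat.beq s q.2.2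

theorem lm_spec {g : ℕ → ℕ} {E : ℕ → Prop} {Q : ℕ} (l : List (ℕ × ℕ × ℕ)) (M : ℕ)
    (hl : ∀ q ∈ l, ∀ j, (∀ t, (f g)^[j] (Q * t + q.1) = q.2.1 * t + q.2.2) →
      ∀ t < M, Ok g E (Q * t + q.1)) (j P r a s : ℕ)
    (h : lm Q l P r a s = true) (h2 : ∀ t, (f g)^[j] (P * t + r) = a * t + s) :
    ∀ t < M, Ok g E (P * t + r) := by
  rw [lm, Bool.and_eq_true, List.any_eq_true] at h
  obtain ⟨hP, q, hq, h3⟩ := h
  rw [Bool.and_eq_true, Bool.and_eq_true] at h3
  have e1 : P = Q := Nat.eq_of_beq_eq_true hP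
  have e2 : r = q.1 := Nat.eq_of_beq_eq_true h3.1.1
  have e3 : a = q.2.1 := Nat.eq_of_beq_eq_true h3.1.2
  have e4 : s = q.2.2 := Nat.eq_of_beq_eq_true h3.2
  subst e1 e2 e3 e4
  exact hl q hq j h2

/-- the two trees together -/
theorem both {g : ℕ → ℕ} (hg : Aff g) {D : ℕ} (hD : tbl g D 10 1 0 1 0 = true) (ex : List ℕ)
    {Q : ℕ} (l : List (ℕ × ℕ × ℕ)) (K : ℕ)
    (hl : ∀ q ∈ l, tr g (lg D ex) K Q q.1 q.2.1 q.2.2 = true)
    {j k P r a s : ℕ} (htop : tr g (lm Q l) k P r a s = true)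
    (h : ∀ t, (f g)^[j] (P * t + r) = a * t + s) :
    ∀ t < 2 ^ (k + K), Ok g (fun n => n ∈ ex) (P * t + r) := by
  intro t ht
  have hsub : ∀ q ∈ l, ∀ j, (∀ t, (f g)^[j] (Q * t + q.1) = q.2.1 * t + q.2.2) →
      ∀ t < 2 ^ K, Ok g (fun n => n ∈ ex) (Q * t + q.1) := by
    intro q hq j hj t ht
    exact tr_spec hg (lg D ex) 1 (fun j P r a s h1 h2 => lg_spec hg hD ex j P r a s h1 h2) K j Q
      q.1 q.2.1 q.2.2 (hl q hq) hj t (by simpa using ht)
  exact tr_spec hg (lm Q l) (2 ^ K) (fun j P r a s h1 h2 => lm_spec l (2 ^ K) hsub j P r a s h1 h2) k j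
    P r a s htop h t (by rwa [← pow_add])

end Pool.Agent.W121.CY
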